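import Pool.Agent.Helper70.Isg.Goals2

/-!
# Packet FKG3 for MP_600500_pr: positive association of two spins, a third one being fixed
-/

open Finset

noncomputable section

namespace Pool.Agent.Helper63.Isg

open Pool.Agent.Helper70.Isg

lemma sg_lattice (a b c e : Bool) :
    sg a * sg b + sg c * sg e ≤ sg (a ⊓ c) * sg (b ⊓ e) + sg (a ⊔ c) * sg (b ⊔ e) := by
  cases a <;> cases b <;> cases c <;> cases e <;> norm_num [sg]

lemma sg_mod (a c : Bool) : sg a + sg c = sg (a ⊓ c) + sg (a ⊔ c) := by
  cases a <;> cases c <;> norm_num [sg]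

lemma iE_lattice {V ι : Type} [Fintype V] (E : Finset ι) (a b : ι → V) (J : ι → ℝ)
    (h : V → ℝ) (hJ : ∀ e, 0 ≤ J e) (s t : V → Bool) :
    iE E a b J h s + iE E a b J h t ≤ iE E a b J h (s ⊓ t) + iE E a b J h (s ⊔ t) := by
  have h1 : ∑ e ∈ E, J e * (sg (s (a e)) * sg (s (b e))) +
      ∑ e ∈ E, J e * (sg (t (a e)) * sg (t (b e))) ≤
      ∑ e ∈ E, J e * (sg ((s ⊓ t) (a e)) * sg ((s ⊓ t) (b e))) +
      ∑ e ∈ E, J e * (sg ((s ⊔ t) (a e)) * sg ((s ⊔ t) (b e))) := by
    rw [← Finset.sum_add_distrib, ← Finset.sum_add_distrib]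
    refine Finset.sum_le_sum fun e _ => ?_
    rw [← mul_add, ← mul_add]
    exact mul_le_mul_of_nonneg_left (sg_lattice _ _ _ _) (hJ e)
  have h2 : ∑ v, h v * sg (s v) + ∑ v, h v * sg (t v) =
      ∑ v, h v * sg ((s ⊓ t) v) + ∑ v, h v * sg ((s ⊔ t) v) := by
    rw [← Finset.sum_add_distrib, ← Finset.sum_add_distrib]
    refine Finset.sum_congr rfl fun v _ => ?_
    rw [← mul_add, ← mul_add]
    congr 1
    exact sg_mod _ _
  unfold iE
  linarith

theorem fkg3 : S_FKG3 := by
  intro V ι _ _ E a b J h x y j r hJ _ _ _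
  have key := four_functions_theorem
    (fun σ : V → Bool => if σ x = true ∧ σ y = false ∧ σ j = r then
      Real.exp (iE E a b J h σ) else 0)
    (fun σ : V → Bool => if σ x = false ∧ σ y = true ∧ σ j = r then
      Real.exp (iE E a b J h σ) else 0)
    (fun σ : V → Bool => if σ x = false ∧ σ y = false ∧ σ j = r then
      Real.exp (iE E a b J h σ) else 0)
    (fun σ : V → Bool => if σ x = true ∧ σ y = true ∧ σ j = r then
      Real.exp (iE E a b J h σ) else 0)
    (fun σ => by dsimp; split_ifs <;> positivity)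
    (fun σ => by dsimp; split_ifs <;> positivity)
    (fun σ => by dsimp; split_ifs <;> positivity)
    (fun σ => by dsimp; split_ifs <;> positivity)
    (by
      intro s t
      by_cases hs : s x = true ∧ s y = false ∧ s j = r
      · by_cases ht : t x = false ∧ t y = true ∧ t j = r
        · have h1 : (s ⊓ t) x = false ∧ (s ⊓ t) y = false ∧ (s ⊓ t) j = r := by
            simp [Pi.inf_apply, hs.1, hs.2.1, hs.2.2, ht.1, ht.2.1, ht.2.2]
          have h2 : (s ⊔ t) x = true ∧ (s ⊔ t) y = true ∧ (s ⊔ t) j = r := by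
            simp [Pi.sup_apply, hs.1, hs.2.1, hs.2.2, ht.1, ht.2.1, ht.2.2]
          rw [if_pos hs, if_pos ht, if_pos h1, if_pos h2, ← Real.exp_add, ← Real.exp_add]
          exact Real.exp_le_exp.2 (iE_lattice E a b J h hJ s t)
        · rw [if_neg ht, mul_zero]
          positivity
      · rw [if_neg hs, zero_mul]
        positivity)
    univ univ
  rw [mul_comm (iZ3 E a b J h x y j true true r)]
  refine key.trans ?_
  unfold iZ3
  gcongr
  · exact Finset.subset_univ _
  · exact Finset.subset_univ _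

end Pool.Agent.Helper63.Isg
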