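import Pool.Agent.Helper70.Isg.Goals2

/-!
# Packet MERGE for MP_600500_pr: merging two vertices
-/

open Finset

noncomputable section

namespace Pool.Agent.Helper63.Isg

open Pool.Agent.Helper70.Isg

lemma sg_not (s : Bool) : sg (!s) = - sg s := by
  cases s <;> norm_num [sg]

/-- Energy of the merged graph when the spins at `x` and `j` agree. -/
lemma iEm_same {V ι : Type} [Fintype V] [DecidableEq V] (E : Finset ι) (a b : ι → V) (J : ι → ℝ)
    (h : V → ℝ) (x j : V) (σ : V → Bool) (hσ : σ j = σ x) :
    iE E (fun e => if a e = j then x else a e) (fun e => if b e = j then x else b e) J h σ =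
      iE E a b J h σ := by
  have key : ∀ c : V, σ (if c = j then x else c) = σ c := by
    intro c
    split_ifs with hc
    · rw [hc, hσ]
    · rfl
  unfold iE
  simp only [key]

/-- Energy of the merged graph: dependence on the spin at `j`. -/
lemma iEm_update {V ι : Type} [Fintype V] [DecidableEq V] (E : Finset ι) (a b : ι → V) (J : ι → ℝ)
    (h : V → ℝ) (x j : V) (hxj : x ≠ j) (σ : V → Bool) (s : Bool) (hs : σ j = s) :
    iE E (fun e => if a e = j then x else a e) (fun e => if b e = j then x else b e) J h
        (Function.update σ j (!s)) =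
      iE E (fun e => if a e = j then x else a e) (fun e => if b e = j then x else b e) J h σ +
        (-2 * h j * sg s) := by
  have key : ∀ c : V, Function.update σ j (!s) (if c = j then x else c) =
      σ (if c = j then x else c) := by
    intro c
    split_ifs with hc
    · rw [Function.update_of_ne hxj]
    · rw [Function.update_of_ne hc]
  have h2 : ∑ v, h v * sg (Function.update σ j (!s) v) = ∑ v, h v * sg (σ v) +
      (-2 * h j * sg s) := by
    rw [← Finset.add_sum_erase _ _ (Finset.mem_univ j),
      ← Finset.add_sum_erase _ (fun v => h v * sg (σ v)) (Finset.mem_univ j)]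
    have : ∑ v ∈ univ.erase j, h v * sg (Function.update σ j (!s) v) =
        ∑ v ∈ univ.erase j, h v * sg (σ v) := by
      refine Finset.sum_congr rfl fun v hv => ?_
      rw [Function.update_of_ne (Finset.ne_of_mem_erase hv)]
    rw [this, Function.update_self, sg_not, hs]
    ring
  unfold iE
  simp only [key, h2]
  ring

theorem merge : S_MERGE := by
  intro V ι _ _ E a b J h x y j hxy hxj hyj s t
  set a' : ι → V := fun e => if a e = j then x else a e with ha'
  set b' : ι → V := fun e => if b e = j then x else b e with hb'
  have h1 : iZ2 E a' b' J h x y s t = iZ3 E a' b' J h x y j s t s +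
      iZ3 E a' b' J h x y j s t (!s) := by
    unfold iZ2 iZ3
    rw [← Finset.sum_add_distrib]
    refine Finset.sum_congr rfl fun σ _ => ?_
    by_cases hx : σ x = s <;> by_cases hy : σ y = t <;> simp only [hx, hy, true_and, false_and,
      if_false, add_zero, and_self, if_true]
    cases hj : σ j <;> cases s <;> simp
  have h2 : iZ3 E a' b' J h x y j s t s = iZ3 E a b J h x y j s t s := by
    unfold iZ3
    refine Finset.sum_congr rfl fun σ _ => ?_
    split_ifs with hc
    · rw [iEm_same E a b J h x j σ (by rw [hc.1, hc.2.2])]
    · rfl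
  have h3 : iZ3 E a' b' J h x y j s t (!s) =
      Real.exp (-2 * h j * sg s) * iZ3 E a' b' J h x y j s t s := by
    unfold iZ3
    rw [Finset.mul_sum]
    symm
    refine Finset.sum_bij' (fun σ _ => Function.update σ j (!(σ j)))
      (fun σ _ => Function.update σ j (!(σ j))) (fun _ _ => Finset.mem_univ _)
      (fun _ _ => Finset.mem_univ _) ?_ ?_ ?_
    · intro σ _
      simp
    · intro σ _
      simp
    · intro σ _
      have hx : Function.update σ j (!(σ j)) x = σ x := Function.update_of_ne hxj _ _
      have hy : Function.update σ j (!(σ j)) y = σ y := Function.update_of_ne hyj _ _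
      rw [hx, hy, Function.update_self]
      by_cases hc : σ x = s ∧ σ y = t ∧ σ j = s
      · have hc' : σ x = s ∧ σ y = t ∧ (!(σ j)) = (!s) := ⟨hc.1, hc.2.1, by rw [hc.2.2]⟩
        rw [if_pos hc, if_pos hc', hc.2.2, iEm_update E a b J h x j hxj σ s hc.2.2,
          Real.exp_add, mul_comm]
      · have hc' : ¬ (σ x = s ∧ σ y = t ∧ (!(σ j)) = (!s)) := by
          intro hh
          refine hc ⟨hh.1, hh.2.1, ?_⟩
          exact Bool.not_inj hh.2.2
        rw [if_neg hc, if_neg hc', mul_zero]
  rw [h1, h3, h2]
  ring

end Pool.Agent.Helper63.Isg
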